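import Pool.Agent.helper64.PC.SpecK

/-!
# SYK: the system of the lower bound
-/

set_option autoImplicit false

namespace Pool.Agent.PC

open Finset Pool.Agent.PB

theorem SYK (hPCR : PCR_stmt) (hIN2 : IN2_stmt) (hSMM : SMM_stmt) (hGRM : GRM_stmt) (hHTM : HTM_stmt) : SYK_stmt := by
  intro K _ _ _ e r D S he hr hq hS
  have h2e : 1 ≤ 2 ^ e := Nat.one_le_two_pow
  have hSL : S.card * 2 ^ (4 * e) = Fintype.card K := by
    rw [hS, hq, ← pow_add]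
    congr 1
    ring
  have hc : 2 * 2 ^ e + 1 ≤ Fintype.card K := by
    rw [hq]
    have h1 : 2 * 2 ^ e + 1 ≤ 2 ^ (e + 2) := by
      rw [pow_add]
      omega
    refine h1.trans (Nat.pow_le_pow_right (by norm_num) (by omega))
  have hunion : ∀ B B' : Finset (Pt K r), PFr B → PFr B' → B.card ≤ 2 * 2 ^ e → B'.card ≤ 2 * 2 ^ e →
      ct (fun θ : Th K (4 * 2 ^ e) r => B ∪ B' ⊆ Hp D S θ) * (2 ^ (4 * e)) ^ (B ∪ B').card =
        Fintype.card (Th K (4 * 2 ^ e) r) := by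
    intro B B' h h' hB hB'
    exact hIN2 K (4 * 2 ^ e) r D (2 ^ (4 * e)) S B B' h h'
      ((card_union_le B B').trans (by omega)) hSL
  refine ⟨⟨PFr, fun a => grF a, fun ω => Ngf D S ω, 2 ^ e, 4 * 2 ^ e * 2 ^ (4 * e), Fintype.card K ^ r,
    2 ^ (2 ^ (2 * e)), (2 ^ (4 * e)) ^ (2 ^ e), 2 ^ (6 * e * (r - 1)), ?_, ?_, h2e, ?_, Nat.one_le_two_pow, ?_,
    Nat.one_le_two_pow, ?_, ?_, ?_⟩, rfl, rfl, rfl, rfl, rfl, rfl⟩
  · intro B B' hBB' h z hz z' hz' hzz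
    exact h z (hBB' hz) z' (hBB' hz') hzz
  · intro a B hB z hz z' hz' hzz
    have h1 := (mem_filter.1 (hB hz)).2
    have h2 := (mem_filter.1 (hB hz')).2
    refine Prod.ext hzz ?_
    rw [h1, h2, hzz]
  · have : 1 ≤ 2 ^ (4 * e) := Nat.one_le_two_pow
    nlinarith
  · rw [hq]
    have h1 : 16 * 2 ^ (6 * e * (r - 1)) * (4 * 2 ^ e * 2 ^ (4 * e)) = 2 ^ (6 + 5 * e + 6 * e * (r - 1)) := by
      rw [show (16 : ℕ) = 2 ^ 4 by norm_num, show (4 : ℕ) * 2 ^ e = 2 ^ 2 * 2 ^ e by norm_num, ← pow_add, ← pow_add,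
        ← pow_add, ← pow_add]
      congr 1
      ring
    rw [h1, ← pow_mul]
    refine Nat.pow_le_pow_right (by norm_num) ?_
    obtain ⟨s, rfl⟩ : ∃ s, r = s + 1 := ⟨r - 1, by omega⟩
    rw [Nat.add_sub_cancel, mul_add]
    omega
  · intro B hB hcard
    exact hPCR K (2 * 2 ^ e) r B hB (by omega) hc
  · intro F i hi hF hmem hspr
    have h1 := hSMM (Pt K r) (Th K (4 * 2 ^ e) r) PFr (Hp D S) (2 ^ (4 * e)) (2 ^ e) Nat.one_le_two_pow h2e hunion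
      F i hi hF hmem hspr
    exact hGRM (Pt K r) (Th K (4 * 2 ^ e) r) (Hp D S) (2 ^ (2 * e)) F h1
  · intro B hB hcard
    refine hHTM (Pt K r) (Th K (4 * 2 ^ e) r) (Hp D S) (2 ^ (2 * e)) ((2 ^ (4 * e)) ^ (2 ^ e)) B
      Nat.one_le_two_pow ?_
    have h1 := hunion B B hB hB (by omega) (by omega)
    rw [union_idempotent] at h1
    rw [← h1]
    exact Nat.mul_le_mul_left _ (Nat.pow_le_pow_right Nat.one_le_two_pow hcard)

end Pool.Agent.PC
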